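import Pool.Agent.MP_3ee8cb_gt.DQI.Int
import Pool.Agent.MP_3ee8cb_gt.DZ.Spec

/-! The scalar inequality for the pinching `1 + 4.1 / N`, and the mean inequality on the shell. -/

namespace Pool.Agent.MP_3ee8cb_gt.DQI

open MeasureTheory Real
open scoped RealInnerProductSpace

theorem num1 {s t x : ℝ} (s0 : 0 < s) (s1 : s ≤ 1 / 4) (ht : s ≤ 0.92 * (1 + s) * t) (t1 : t ≤ 1)
    (x1 : x ≤ 4.1 * s * (1 - t ^ 2)) :
    4.1 * s * x - x ^ 2 ≤ 3.95 * s * (t * (1 - t + x)) := by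
  have t0 : 0 < t := pos_of_mul_pos_right (s0.trans_le ht) (by positivity)
  rcases le_total t 0.72 with h | h
  · have a1 : 0.92 * (4.1 - 3.95 * t) ^ 2 ≤ 15.8 * (1 - t) * (1 - 0.92 * t) := by nlinarith
    have a2 : s * (4.1 - 3.95 * t) ^ 2 ≤ 15.8 * (t * (1 - t)) := by
      refine le_of_mul_le_mul_right ?_ (show 0 < 1 - 0.92 * t by linarith)
      nlinarith [mul_le_mul_of_nonneg_left a1 t0.le, mul_le_mul_of_nonneg_right
        (show s * (1 - 0.92 * t) ≤ 0.92 * t by linarith) (sq_nonneg (4.1 - 3.95 * t))]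
    nlinarith [mul_le_mul_of_nonneg_left a2 s0.le, sq_nonneg (2 * x - s * (4.1 - 3.95 * t))]
  · have a1 : x ≤ 8.2 * s * (1 - t) := by
      nlinarith [mul_nonneg s0.le (sq_nonneg (1 - t))]
    have a2 : 8.2 * s * (4.1 - 3.95 * t) ≤ 3.95 * t := by
      nlinarith [mul_le_mul_of_nonneg_left h s0.le]
    have a3 := mul_le_mul_of_nonneg_left a1 (show 0 ≤ 4.1 - 3.95 * t by linarith)
    have a4 := mul_le_mul_of_nonneg_left a2 (sub_nonneg.2 t1)
    nlinarith [mul_le_mul_of_nonneg_left (show (4.1 - 3.95 * t) * x ≤ 3.95 * t * (1 - t) by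
      linarith) s0.le, sq_nonneg x]

open DN DZ

variable [Dim]

theorem intS {F : ℝ} (hF : 0 < F) (h : 0.91 * ((dm : ℝ) + 1) ≤ F ^ 2) {e : V} (he : ‖e‖ = 1) :
    0 < ∫ w, |⟪un w, e⟫| * log (F * |⟪un w, e⟫|) ∂mS := int hF h he

theorem intS_able {F : ℝ} (hF : 0 < F) {e : V} (he : ‖e‖ = 1) :
    Integrable (fun w => |⟪un w, e⟫| * log (F * |⟪un w, e⟫|)) mS := int_able F hF e he

end Pool.Agent.MP_3ee8cb_gt.DQI
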