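import Pool.Agent.MP_3ee8cb_gt.DQI.Num
import Pool.Agent.MP_3ee8cb_gt.DQ.Spec

/-! The constants for the pinching `1 + 4.1 / max n 4`. -/

namespace Pool.Agent.MP_3ee8cb_gt.DQI

open Real DQ

theorem nu1 {N : ℝ} (h : 4 ≤ N) : Nu1 (41 / (10 * N)) (79 / (20 * N)) √(0.92 * (N + 1)) := by
  intro t x a b _ d
  have N0 : 0 < N := by linarith
  rw [sq_sqrt (by positivity)] at a
  have e1 : 41 / (10 * N) = 4.1 * N⁻¹ := by field_simp; norm_num
  have e2 : 79 / (20 * N) = 3.95 * N⁻¹ := by field_simp; norm_num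
  rw [e1] at d ⊢
  rw [e2, mul_assoc (3.95 * N⁻¹)]
  refine num1 (inv_pos.2 N0) (by simpa using inv_anti₀ four_pos h) ?_ b d
  rw [show 0.92 * (1 + N⁻¹) * t = N⁻¹ * (0.92 * (N + 1) * t) by field_simp]
  exact le_mul_of_one_le_right (inv_pos.2 N0).le a

open DN

variable [Dim]

theorem nu3 {N : ℝ} (h : (dm : ℝ) ≤ N) : Nu3 √(0.91 * (N + 1)) := fun _ he => by
  have N0 : 0 < 0.91 * (N + 1) := by linarith [Nat.cast_nonneg (α := ℝ) dm]
  exact intS (sqrt_pos.2 N0) (by rw [sq_sqrt N0.le]; linarith) he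

/-- All numerical hypotheses. -/
theorem con : ∃ e F₀ F₁ : ℝ, 0 ≤ 41 / (10 * max (dm : ℝ) 4) ∧ 0 ≤ e ∧ dm * e < 4 ∧ 2 ≤ F₀ ∧
    F₀ < F₁ ∧ Nu1 (41 / (10 * max (dm : ℝ) 4)) e F₁ ∧ Nu3 F₀ := by
  have h1 := le_max_left (dm : ℝ) 4
  have h2 := le_max_right (dm : ℝ) 4
  generalize max (dm : ℝ) 4 = N at h1 h2
  have N0 : 0 < N := by linarith
  refine ⟨_, _, _, by positivity, by positivity, ?_, le_sqrt_of_sq_le (by linarith),
    sqrt_lt_sqrt (by positivity) (by linarith), nu1 h2, nu3 h1⟩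
  rw [← mul_div_assoc, div_lt_iff₀ (by positivity)]
  linarith

end Pool.Agent.MP_3ee8cb_gt.DQI
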