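import Pool.Agent.MP_3ee8cb_gt.DZJ.Shell

/-! The mean of `|s| log (F |s|)` over directions is positive when `F ^ 2 ≥ 0.91 (n + 1)`. -/

namespace Pool.Agent.MP_3ee8cb_gt.DQI

open Set MeasureTheory Metric CR Real Filter Topology DZJ
open scoped RealInnerProductSpace

variable {n : ℕ}

theorem polar {J : E n → ℝ} (hJ : ∀ w, J (‖w‖⁻¹ • w) = J w) (hn : 0 < n) (f : ℝ → ℝ) :
    ∫ v : E n, J v * f ‖v‖ = (∫ p : sphere (0 : E n) 1, J p ∂(volume : Measure (E n)).toSphere) *
      ∫ x : Ioi (0 : ℝ), f x ∂.volumeIoiPow (Module.finrank ℝ (E n) - 1) := by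
  have : Nonempty (Fin n) := ⟨⟨0, hn⟩⟩
  rw [← integral_prod_mul (fun p : sphere (0 : E n) 1 => J p) (fun x : Ioi (0 : ℝ) => f x),
    ← (volume : Measure (E n)).measurePreserving_homeomorphUnitSphereProd.integral_comp
      (Homeomorph.measurableEmbedding _), ← restrict_compl_singleton (μ := volume) (0 : E n),
    ← integral_subtype_comap (measurableSet_singleton _).compl, restrict_compl_singleton]
  refine integral_congr_ae (.of_forall fun x => ?_)
  simp only [homeomorphUnitSphereProd_apply_fst_coe, homeomorphUnitSphereProd_apply_snd_coe, hJ]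

/-- A positive radial mean gives a positive mean on the shell. -/
theorem shell {J : E n → ℝ} (hJ : ∀ w, J (‖w‖⁻¹ • w) = J w) (hn : 0 < n) {f : ℝ → ℝ}
    (hf : ∀ r, 0 < r → 0 ≤ f r) (h : 0 < ∫ v : E n, J v * f ‖v‖) : 0 < ∫ v, J v ∂mSh n := by
  rw [polar hJ hn] at h
  have hA := pos_of_mul_pos_left h (integral_nonneg fun x => hf _ x.2)
  have e : ∀ J : E n → ℝ, ∫ v in Sh n, J v = ∫ v, J v * (Icc (1 : ℝ) 2).indicator 1 ‖v‖ :=
    fun J => by
    rw [← integral_indicator sh_closed.measurableSet]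
    refine integral_congr_ae (.of_forall fun v => ?_)
    by_cases hv : ‖v‖ ∈ Icc (1 : ℝ) 2
    · simp only [indicator_of_mem hv, indicator_of_mem (show v ∈ Sh n from hv), Pi.one_apply,
        mul_one]
    · simp only [indicator_of_notMem hv, indicator_of_notMem (show v ∉ Sh n from hv), mul_zero]
  have h1 : 0 < ∫ _v in Sh n, (1 : ℝ) := by
    simpa [Measure.real] using ENNReal.toReal_pos (sh_pos hn) sh_fin
  rw [e, polar (fun _ => rfl) hn] at h1
  have h2 := pos_of_mul_pos_right h1 (integral_nonneg fun _ => zero_le_one)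
  rw [mSh, integral_smul_measure, e, polar hJ hn, smul_eq_mul]
  exact mul_pos (ENNReal.toReal_pos (ENNReal.div_ne_zero.2 ⟨Nat.cast_ne_zero.2 hn.ne', sh_fin⟩)
    (ENNReal.div_ne_top (ENNReal.natCast_ne_top n) (sh_pos hn))) (mul_pos hA h2)

theorem int1 {q : ℝ} (hq : -1 < q) : Integrable fun t : ℝ => |t| ^ q * exp (-t ^ 2) := by
  have h1 : IntegrableOn (fun t : ℝ => |t| ^ q * exp (-t ^ 2)) (Ioi 0) :=
    (integrableOn_rpow_mul_exp_neg_mul_sq one_pos hq).congr_fun
      (fun x hx => by simp [abs_of_pos (mem_Ioi.1 hx)]) measurableSet_Ioi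
  rw [← integrableOn_univ, ← Iio_union_Ici (a := (0 : ℝ)), integrableOn_union,
    integrableOn_Ici_iff_integrableOn_Ioi]
  refine ⟨?_, h1⟩
  rw [← (Measure.measurePreserving_neg (volume : Measure ℝ)).integrableOn_comp_preimage
    (Homeomorph.neg ℝ).measurableEmbedding]
  simpa [Function.comp_def] using h1

theorem val1 {q : ℝ} (hq : -1 < q) : ∫ t : ℝ, |t| ^ q * exp (-t ^ 2) = Gamma ((q + 1) / 2) := by
  have h := integral_comp_abs (f := fun t => t ^ q * exp (-1 * t ^ (2 : ℝ)))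
  rw [integral_rpow_mul_exp_neg_mul_rpow two_pos hq one_pos] at h
  simp only [rpow_two, sq_abs, neg_one_mul, one_rpow] at h
  linarith

/-- A Gaussian monomial. -/
noncomputable def P (a x : Fin n → ℝ) : ℝ := ∏ j, |x j| ^ a j * exp (-x j ^ 2)

theorem P_int {a : Fin n → ℝ} (ha : ∀ j, -1 < a j) : Integrable (P a) :=
  Integrable.fintype_prod (f := fun j t => |t| ^ a j * exp (-t ^ 2)) fun j => int1 (ha j)

theorem P_val {a : Fin n → ℝ} (ha : ∀ j, -1 < a j) : ∫ x, P a x = ∏ j, Gamma ((a j + 1) / 2) := by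
  rw [← Finset.prod_congr rfl fun j _ => val1 (ha j)]
  exact integral_fintype_prod_volume_eq_prod fun j t => |t| ^ a j * exp (-t ^ 2)

theorem pw (i : Fin n) (q : ℝ) (x : Fin n → ℝ) :
    ∏ j, |x j| ^ (Pi.single i q : Fin n → ℝ) j = |x i| ^ q := by
  rw [Finset.prod_eq_single i (fun j _ h => by simp [h]) (by simp), Pi.single_eq_same]

theorem P1 (i : Fin n) (q : ℝ) (x : Fin n → ℝ) :
    P (Pi.single i q) x = |x i| ^ q * exp (-∑ j, x j ^ 2) := by
  rw [P, Finset.prod_mul_distrib, pw, ← exp_sum, Finset.sum_neg_distrib]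

theorem s0 (i j : Fin n) {q : ℝ} (hq : 0 ≤ q) : 0 ≤ (Pi.single i q : Fin n → ℝ) j := by
  rcases eq_or_ne j i with rfl | h <;> simp [*]

theorem s1 (i j : Fin n) {q : ℝ} (hq : -1 < q) : -1 < (Pi.single i q : Fin n → ℝ) j := by
  rcases eq_or_ne j i with rfl | h <;> simp [*]

theorem P2 (i k : Fin n) (x : Fin n → ℝ) :
    P (Pi.single i 1 + Pi.single k 2) x = |x i| * x k ^ 2 * exp (-∑ j, x j ^ 2) := by
  rw [P, Finset.prod_mul_distrib, ← exp_sum, Finset.sum_neg_distrib]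
  simp only [Pi.add_apply, fun j => rpow_add_of_nonneg (abs_nonneg (x j)) (s0 i j zero_le_one)
    (s0 k j zero_le_two), Finset.prod_mul_distrib, pw, rpow_one, rpow_two, sq_abs]

theorem V1 (i : Fin n) {q : ℝ} (hq : -1 < q) : ∫ x, P (Pi.single i q) x =
    Gamma ((q + 1) / 2) * ∏ _j ∈ Finset.univ.erase i, Gamma (1 / 2) := by
  rw [P_val fun j => s1 i j hq, ← Finset.mul_prod_erase _ _ (Finset.mem_univ i), Pi.single_eq_same]
  exact congrArg _ (Finset.prod_congr rfl fun j hj => by simp [Finset.ne_of_mem_erase hj])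

theorem I2 (i k j : Fin n) : -1 < (Pi.single i 1 + Pi.single k 2 : Fin n → ℝ) j := by
  linarith [s0 i j zero_le_one, s0 k j zero_le_two, Pi.add_apply (Pi.single i (1 : ℝ))
    (Pi.single k 2 : Fin n → ℝ) j]

theorem V2 (i : Fin n) : ∑ k, ∫ x, P (Pi.single i 1 + Pi.single k 2) x =
    (n + 1) / 2 * ∏ _j ∈ Finset.univ.erase i, Gamma (1 / 2) := by
  have h : ∀ k ∈ Finset.univ.erase i, ∫ x, P (Pi.single i 1 + Pi.single k 2) x =
      1 / 2 * ∏ _j ∈ Finset.univ.erase i, Gamma (1 / 2) := fun k hk => by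
    have ki := Finset.ne_of_mem_erase hk
    rw [P_val (I2 i k), ← Finset.mul_prod_erase _ _ (Finset.mem_univ i),
      ← Finset.mul_prod_erase _ _ hk, ← Finset.mul_prod_erase _ (fun _ => Gamma (1 / 2)) hk,
      Finset.prod_congr rfl (g := fun _ => Gamma (1 / 2)) fun j hj => by
        simp [Finset.ne_of_mem_erase hj, Finset.ne_of_mem_erase (Finset.mem_of_mem_erase hj)]]
    have e := Gamma_add_one (s := 1 / 2) (by norm_num)
    simp only [Pi.add_apply, Pi.single_eq_same, Pi.single_eq_of_ne ki, Pi.single_eq_of_ne ki.symm]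
    rw [show ((1 : ℝ) + 0 + 1) / 2 = 1 by norm_num, show ((0 : ℝ) + 2 + 1) / 2 = 1 / 2 + 1 by
      norm_num, e, Gamma_one]
    ring
  rw [← Finset.add_sum_erase _ _ (Finset.mem_univ i), Finset.sum_congr rfl h, ← Pi.single_add,
    V1 i (by norm_num), Finset.sum_const, Finset.card_erase_of_mem (Finset.mem_univ i),
    show ((1 : ℝ) + 2 + 1) / 2 = 2 by norm_num, Gamma_two, nsmul_eq_mul, Finset.card_univ,
    Fintype.card_fin, Nat.cast_pred i.pos]
  ring

theorem gam : eulerMascheroniConstant < log 1.82 := by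
  have h := eulerMascheroniConstant_lt_eulerMascheroniSeq' 32
  have h1 : (harmonic 32 : ℝ) < 4.0585 := by
    simp only [harmonic, Finset.sum_range_succ, Finset.sum_range_zero]
    norm_num
  have h2 : log ((32 : ℕ) : ℝ) = 5 * log 2 := by
    rw [show ((32 : ℕ) : ℝ) = 2 ^ 5 by norm_num, log_pow]; norm_num
  have h3 : log 1.82 = log 2 + log 0.91 := by rw [← log_mul] <;> norm_num
  have h4 := one_sub_inv_le_log_of_pos (x := 0.91) (by norm_num)
  rw [eulerMascheroniSeq', if_neg (by norm_num), h2] at h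
  have := log_two_gt_d9
  norm_num at *
  linarith

theorem eps : ∃ ε : ℝ, 0 < ε ∧ ε < 1 / 2 ∧ exp (-ε * log 1.82) * Gamma (1 - ε) < 1 := by
  have h1 : HasDerivAt (fun ε : ℝ => Gamma (1 - ε)) (-eulerMascheroniConstant * -1) 0 :=
    HasDerivAt.comp (h₂ := Gamma) 0 (by simpa using hasDerivAt_Gamma_one)
      ((hasDerivAt_id (0 : ℝ)).const_sub 1)
  have h2 := (((hasDerivAt_neg (0 : ℝ)).mul_const (log 1.82)).exp.mul h1).tendsto_slope_zero_right
  have h3 := h2.eventually_lt_const (u := 0) (by simpa using gam)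
  obtain ⟨ε, h, h0⟩ := (h3.and (Ioo_mem_nhdsGT (show (0 : ℝ) < 1 / 2 by norm_num))).exists
  refine ⟨ε, h0.1, h0.2, ?_⟩
  have := (mul_neg_iff.1 h).resolve_right fun k => absurd k.1 (inv_pos.2 h0.1).not_gt
  simpa using this.2

theorem ptw {F N t r ε : ℝ} (hN : 0 < N) (hF : 0 < F) (h : 0.91 * N ≤ F ^ 2) (ht : 0 < t)
    (hr : 0 < r) (hε : 0 < ε) : ε⁻¹ * (t - exp (-ε * log 1.82) * t ^ (1 - 2 * ε)) + t -
      2 / N * (t * r ^ 2) ≤ 2 * (t * log (F * (t / r))) := by
  have a1 := add_one_le_exp (-ε * log 1.82 + log t * -(2 * ε))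
  have a2 := log_le_sub_one_of_pos (show 0 < 2 / N * r ^ 2 by positivity)
  have a3 := log_le_log (by positivity) h
  rw [log_mul (by positivity) (by positivity), log_div two_ne_zero hN.ne', log_pow] at a2
  rw [log_mul (by norm_num) hN.ne', log_pow] at a3
  have a4 : log 1.82 = log 2 + log 0.91 := by rw [← log_mul] <;> norm_num
  have a5 : ε⁻¹ * (1 - exp (-ε * log 1.82 + log t * -(2 * ε))) ≤ log 1.82 + 2 * log t := by
    rw [inv_mul_le_iff₀ hε]; linarith
  rw [log_mul hF.ne' (by positivity), log_div ht.ne' hr.ne', sub_eq_add_neg 1, rpow_add ht,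
    rpow_one, rpow_def_of_pos ht, mul_left_comm, ← exp_add]
  push_cast at a2 a3
  nlinarith [mul_le_mul_of_nonneg_left a5 ht.le, mul_le_mul_of_nonneg_left a2 ht.le,
    mul_le_mul_of_nonneg_left a3 ht.le]

theorem gauss (i : Fin n) {F : ℝ} (hF : 0 < F) (h : 0.91 * (n + 1) ≤ F ^ 2) :
    0 < ∫ x : Fin n → ℝ, |x i| * log (F * (|x i| / √(∑ j, x j ^ 2))) * exp (-∑ j, x j ^ 2) := by
  obtain ⟨ε, e0, e1, e2⟩ := eps
  have i1 := P_int (a := Pi.single i 1) fun j => s1 i j (by norm_num)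
  have i2 := P_int (a := Pi.single i (1 - 2 * ε)) fun j => s1 i j (by linarith)
  have i3 := integrable_finsetSum Finset.univ fun k _ => P_int (I2 i k)
  have i4 := (i1.sub (i2.const_mul (exp (-ε * log 1.82)))).const_mul ε⁻¹
  have i5 := (i4.add i1).sub (i3.const_mul (2 / (n + 1)))
  have sq : ∀ x : Fin n → ℝ, |x i| ≤ √(∑ j, x j ^ 2) := fun x =>
    abs_le_sqrt (Finset.single_le_sum (fun j _ => sq_nonneg (x j)) (Finset.mem_univ i))
  have lo : ∀ x : Fin n → ℝ, ε⁻¹ * (P (Pi.single i 1) x - exp (-ε * log 1.82) *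
      P (Pi.single i (1 - 2 * ε)) x) + P (Pi.single i 1) x - 2 / (n + 1) *
      ∑ k, P (Pi.single i 1 + Pi.single k 2) x ≤
      2 * (|x i| * log (F * (|x i| / √(∑ j, x j ^ 2))) * exp (-∑ j, x j ^ 2)) := fun x => by
    simp only [P1, P2, rpow_one, ← Finset.sum_mul, ← Finset.mul_sum]
    rcases (abs_nonneg (x i)).eq_or_lt with h0 | h0
    · rw [← h0, zero_rpow (by linarith)]; simp
    · have k := ptw (by positivity) hF h h0 (h0.trans_le (sq x)) e0
      rw [sq_sqrt (by positivity)] at k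
      nlinarith [mul_le_mul_of_nonneg_right k (exp_pos (-∑ j, x j ^ 2)).le]
  have up : ∀ x : Fin n → ℝ, 2 * (|x i| * log (F * (|x i| / √(∑ j, x j ^ 2))) *
      exp (-∑ j, x j ^ 2)) ≤ 2 * F * P (Pi.single i 1) x := fun x => by
    have k : log (F * (|x i| / √(∑ j, x j ^ 2))) ≤ F := (log_le_self (by positivity)).trans
      (mul_le_of_le_one_right hF.le (div_le_one_of_le₀ (sq x) (sqrt_nonneg _)))
    rw [P1, rpow_one]
    nlinarith [mul_le_mul_of_nonneg_left k (mul_nonneg (abs_nonneg (x i))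
      (exp_pos (-∑ j, x j ^ 2)).le)]
  have k := integral_mono i5 (integrable_of_le_of_le (Measurable.aestronglyMeasurable (by fun_prop))
    (.of_forall lo) (.of_forall up) i5 (i1.const_mul _)) lo
  have hW : 0 < ∏ _j ∈ Finset.univ.erase i, Gamma (1 / 2) :=
    Finset.prod_pos fun _ _ => Gamma_pos_of_pos (by norm_num)
  rw [integral_sub' (i4.add i1) (i3.const_mul _), integral_add' i4 i1, integral_const_mul,
    integral_sub' i1 (i2.const_mul _), integral_const_mul, integral_const_mul, integral_const_mul,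
    integral_finsetSum _ fun k _ => P_int (I2 i k), V2, V1 i (by norm_num), V1 i (by linarith),
    show ((1 : ℝ) + 1) / 2 = 1 by norm_num, show (1 - 2 * ε + 1) / 2 = 1 - ε by ring, Gamma_one,
    ← mul_assoc (2 / _), show 2 / ((n : ℝ) + 1) * ((n + 1) / 2) = 1 by field_simp] at k
  nlinarith [mul_pos (inv_pos.2 e0) (mul_pos (sub_pos.2 e2) hW)]

/-- The main inequality. -/
theorem int {F : ℝ} (hF : 0 < F) (h : 0.91 * (n + 1) ≤ F ^ 2) {e : E n} (he : ‖e‖ = 1) :
    0 < ∫ w, |⟪‖w‖⁻¹ • w, e⟫| * log (F * |⟪‖w‖⁻¹ • w, e⟫|) ∂mSh n := by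
  have hn : 0 < n := Nat.pos_of_ne_zero fun h0 => by
    subst h0
    simp [Subsingleton.elim e 0] at he
  let d : E n := EuclideanSpace.single ⟨0, hn⟩ 1
  let R := (ℝ ∙ (d - e))ᗮ.reflection
  have hR : R d = e := Submodule.reflection_sub (by simp [d, he])
  rw [← (mSh_inv R).integral_comp R.toHomeomorph.measurableEmbedding, ← hR]
  simp only [LinearIsometryEquiv.norm_map, ← map_smul, LinearIsometryEquiv.inner_map_map]
  refine shell (f := fun r => r * exp (-r ^ 2)) (fun w => ?_) hn (fun r hr => by positivity) ?_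
  · rcases eq_or_ne w 0 with rfl | h0
    · simp
    · rw [hat_norm h0, inv_one, one_smul]
  rw [← (PiLp.volume_preserving_toLp (Fin n)).integral_comp
    (MeasurableEquiv.toLp 2 _).measurableEmbedding]
  refine (gauss ⟨0, hn⟩ hF h).trans_eq (integral_congr_ae (.of_forall fun x => ?_))
  have e1 : ‖(WithLp.toLp 2 x : E n)‖ = √(∑ j, x j ^ 2) := by simp [EuclideanSpace.norm_eq]
  have e2 : |⟪‖(WithLp.toLp 2 x : E n)‖⁻¹ • (WithLp.toLp 2 x : E n), d⟫| =
      |x ⟨0, hn⟩| / √(∑ j, x j ^ 2) := by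
    simp [d, EuclideanSpace.inner_single_right, e1, abs_mul, div_eq_inv_mul]
  simp only [e2]
  rw [e1, sq_sqrt (by positivity)]
  rcases eq_or_ne √(∑ j, x j ^ 2) 0 with h0 | h0
  · have : |x ⟨0, hn⟩| ≤ √(∑ j, x j ^ 2) :=
      abs_le_sqrt (Finset.single_le_sum (fun j _ => sq_nonneg (x j)) (Finset.mem_univ _))
    simp [h0]
  · field_simp

/-- The integrand is integrable. -/
theorem int_able (F : ℝ) (hF : 0 < F) (e : E n) (he : ‖e‖ = 1) :
    Integrable (fun w : E n => |⟪‖w‖⁻¹ • w, e⟫| * log (F * |⟪‖w‖⁻¹ • w, e⟫|)) (mSh n) := by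
  refine Integrable.of_bound (Measurable.aestronglyMeasurable (by fun_prop)) (F + F⁻¹)
    (.of_forall fun w => ?_)
  have h1 : |⟪‖w‖⁻¹ • w, e⟫| ≤ 1 :=
    (abs_real_inner_le_norm _ _).trans (by rw [he, mul_one]; exact hat_le w)
  have h0 := abs_nonneg ⟪‖w‖⁻¹ • w, e⟫
  generalize |⟪‖w‖⁻¹ • w, e⟫| = s at h1 h0
  have hi := inv_pos.2 hF
  rcases h0.eq_or_lt with rfl | h0
  · simp; positivity
  have a1 := log_le_self (mul_pos hF h0).le
  have a2 := one_sub_inv_le_log_of_pos (mul_pos hF h0)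
  have a3 : s * (F * s)⁻¹ = F⁻¹ := by field_simp
  rw [Real.norm_eq_abs, abs_le]
  constructor <;> nlinarith [mul_le_mul_of_nonneg_left a1 h0.le,
    mul_le_mul_of_nonneg_left a2 h0.le, mul_le_mul h1 h1 h0.le zero_le_one]

end Pool.Agent.MP_3ee8cb_gt.DQI
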